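import Pool.Agent.H12.KP.Targets4

/-!
# KEW, block (i), row FINPT
-/

set_option autoImplicit false

namespace Pool.Agent.H60.KP

open Pool.Agent.H12.KP Polynomial TensorProduct

universe u v

variable {A : Type u} {D : Type v} [CommRing A] [CommRing D] [Algebra A D]
  (𝒟 : ℕ → Submodule A D) [GradedAlgebra 𝒟]

lemma homogeneous_of_minimal {s : Set D} (hs : ∀ x ∈ s, SetLike.IsHomogeneousElem 𝒟 x)
    {y : Ideal D} (hy : y ∈ (Ideal.span s).minimalPrimes) : y.IsHomogeneous 𝒟 := by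
  have h1 : y.IsPrime := hy.1.1
  have h2 : Ideal.span s ≤ y := hy.1.2
  have h3 : (y.homogeneousCore 𝒟).toIdeal.IsPrime := h1.homogeneousCore
  have h4 : Ideal.span s ≤ (y.homogeneousCore 𝒟).toIdeal := by
    rw [Ideal.span_le]
    intro x hx
    exact Ideal.mem_homogeneousCore_of_homogeneous_of_mem (hs x hx) (h2 (Ideal.subset_span hx))
  have h5 : (y.homogeneousCore 𝒟).toIdeal ≤ y := Ideal.toIdeal_homogeneousCore_le 𝒟 y
  have h6 : y ≤ (y.homogeneousCore 𝒟).toIdeal := hy.2 ⟨h3, h4⟩ h5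
  have h7 : (y.homogeneousCore 𝒟).toIdeal = y := le_antisymm h5 h6
  rw [← h7]
  exact (y.homogeneousCore 𝒟).isHomogeneous

theorem pf_FINPT : S_FINPT.{u, v} := by
  intro A D _ _ _ _ 𝒟 _ π hclo m β hβ hy
  have hπ : SetLike.IsHomogeneousElem 𝒟 (algebraMap A D π) :=
    ⟨0, SetLike.algebraMap_mem_graded 𝒟 π⟩
  have rel_of_le : ∀ P Q : Ideal D, Rel 𝒟 P → Q ≤ P → Q.IsPrime → Q.IsHomogeneous 𝒟 →
      Rel 𝒟 Q := by
    intro P Q hP hQP h1 h2
    exact ⟨h1, h2, fun h => hP.2.2 (h.trans hQP)⟩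
  have key : ∀ P : Ideal D, Rel 𝒟 P → algebraMap A D π ∈ P → β ∈ P → Clo 𝒟 π P := by
    intro P hP hπP hβP
    haveI := hP.1
    obtain ⟨y, hy1, hy2⟩ := Ideal.exists_minimalPrimes_le
      (show Ideal.span {algebraMap A D π} ≤ P from
        (Ideal.span_singleton_le_iff_mem P).2 hπP)
    have hyh : y.IsHomogeneous 𝒟 := homogeneous_of_minimal 𝒟 (by
      intro x hx
      rw [Set.mem_singleton_iff] at hx
      rw [hx]
      exact hπ) hy1
    have hyr := rel_of_le P y hP hy2 hy1.1.1 hyh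
    have hβy := hy y hy1 hyr
    have hne : y ≠ P := by
      rintro rfl
      exact hβy hβP
    exact hclo y P hyr hP (hy1.1.2 (Ideal.mem_span_singleton_self _)) (lt_of_le_of_ne hy2 hne)
  refine ⟨?_, key⟩
  refine (Ideal.finite_minimalPrimes_of_isNoetherianRing D
    (Ideal.span {algebraMap A D π, β})).subset ?_
  rintro P ⟨hP, hπP, hβP⟩
  haveI := hP.1
  have hle : Ideal.span {algebraMap A D π, β} ≤ P := by
    rw [Ideal.span_le]
    rintro x (rfl | hx)
    · exact hπP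
    · rw [Set.mem_singleton_iff] at hx
      rw [hx]
      exact hβP
  obtain ⟨z, hz1, hz2⟩ := Ideal.exists_minimalPrimes_le hle
  have hzh : z.IsHomogeneous 𝒟 := homogeneous_of_minimal 𝒟 (by
    rintro x (rfl | hx)
    · exact hπ
    · rw [Set.mem_singleton_iff] at hx
      rw [hx]
      exact ⟨m, hβ⟩) hz1
  have hzr := rel_of_le P z hP hz2 hz1.1.1 hzh
  have hzc := key z hzr (hz1.1.2 (Ideal.subset_span (by simp)))
    (hz1.1.2 (Ideal.subset_span (by simp)))
  have := hzc.2.2 P hP hz2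
  rw [this]
  exact hz1

end Pool.Agent.H60.KP
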