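import Pool.Agent.H12.KP.Targets4

/-!
# KEW, block (i), row AVOID
-/

set_option autoImplicit false

namespace Pool.Agent.H60.KP

open Pool.Agent.H12.KP Polynomial TensorProduct

universe u v

variable {A : Type u} {D : Type v} [CommRing A] [CommRing D] [Algebra A D]
  (𝒟 : ℕ → Submodule A D) [GradedAlgebra 𝒟]

lemma exists_homogeneous_notMem {I P : Ideal D} (hI : I.IsHomogeneous 𝒟) (h : ¬ I ≤ P) :
    ∃ d, ∃ x ∈ 𝒟 d, x ∈ I ∧ x ∉ P := by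
  classical
  by_contra hcon
  push Not at hcon
  apply h
  intro x hx
  rw [← DirectSum.sum_support_decompose 𝒟 x]
  exact P.sum_mem fun i _ => hcon i _ (SetLike.coe_mem _) (hI i hx)

lemma exists_g {I : Ideal D} (hI : I.IsHomogeneous 𝒟) {P : Ideal D} (hP : Rel 𝒟 P)
    (s : Finset (Ideal D)) (hs : ∀ Q ∈ s, Q.IsHomogeneous 𝒟) (hIP : ¬ I ≤ P)
    (hsP : ∀ Q ∈ s, ¬ Q ≤ P) : ∃ d, 0 < d ∧ ∃ g ∈ 𝒟 d, g ∈ I ∧ g ∉ P ∧ ∀ Q ∈ s, g ∈ Q := by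
  classical
  have h1 : (I ⊓ s.inf id).IsHomogeneous 𝒟 := by
    refine hI.inf ?_
    rw [Finset.inf_eq_iInf]
    exact Ideal.IsHomogeneous.iInf₂ fun Q hQ => hs Q hQ
  have h2 : ¬ (I ⊓ s.inf id ≤ P) := by
    rw [hP.1.inf_le, hP.1.inf_le']
    rintro (h | ⟨Q, hQ, h⟩)
    · exact hIP h
    · exact hsP Q hQ h
  obtain ⟨d, x, hx, hxI, hxP⟩ := exists_homogeneous_notMem 𝒟 h1 h2
  obtain ⟨x1, hx1, hx1P⟩ := Set.not_subset.1 hP.2.2
  have hxI1 := (Submodule.mem_inf.1 hxI).1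
  have hxI2 := (Submodule.mem_inf.1 hxI).2
  refine ⟨d + 1, Nat.succ_pos d, x * x1, SetLike.mul_mem_graded hx hx1,
    I.mul_mem_right _ hxI1, ?_, ?_⟩
  · intro h
    rcases hP.1.mem_or_mem h with h | h
    · exact hxP h
    · exact hx1P h
  · intro Q hQ
    exact Q.mul_mem_right _ ((Finset.inf_le (f := id) hQ) hxI2)

theorem pf_AVOID : S_AVOID.{u, v} := by
  classical
  intro A D _ _ _ 𝒟 _ I hI Q hQ hIQ
  set M := Q.filter (fun P => ∀ P' ∈ Q, P ≤ P' → P' = P) with hM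
  have hMQ : ∀ P ∈ M, P ∈ Q := fun P hP => (Finset.mem_filter.1 hP).1
  have hinc : ∀ P ∈ M, ∀ P' ∈ M.erase P, ¬ P' ≤ P := by
    intro P hP P' hP' h
    obtain ⟨h1, h2⟩ := Finset.mem_erase.1 hP'
    exact h1 ((Finset.mem_filter.1 h2).2 P (hMQ P hP) h).symm
  have hex : ∀ P : Ideal D, ∃ (d : ℕ) (g : D), P ∈ M → 0 < d ∧ g ∈ 𝒟 d ∧ g ∈ I ∧ g ∉ P ∧
      ∀ P' ∈ M.erase P, g ∈ P' := by
    intro P
    by_cases hP : P ∈ M
    · obtain ⟨d, hd, g, hg, hgI, hgP, hgs⟩ := exists_g 𝒟 hI (hQ P (hMQ P hP)) (M.erase P)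
        (fun P' hP' => (hQ P' (hMQ P' (Finset.mem_of_mem_erase hP'))).2.1) (hIQ P (hMQ P hP))
        (hinc P hP)
      exact ⟨d, g, fun _ => ⟨hd, hg, hgI, hgP, hgs⟩⟩
    · exact ⟨0, 0, fun h => absurd h hP⟩
  choose d g hdg using hex
  have hn : 0 < ∏ P ∈ M, d P := Finset.prod_pos fun P hP => (hdg P hP).1
  have hdvd : ∀ P ∈ M, d P ∣ ∏ P ∈ M, d P := fun P hP => Finset.dvd_prod_of_mem d hP
  have hpos : ∀ P ∈ M, (∏ P ∈ M, d P) / d P ≠ 0 := fun P hP =>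
    (Nat.div_pos (Nat.le_of_dvd hn (hdvd P hP)) (hdg P hP).1).ne'
  refine ⟨∏ P ∈ M, d P, hn, ∑ P ∈ M, g P ^ ((∏ P ∈ M, d P) / d P), ?_, ?_, ?_⟩
  · refine Submodule.sum_mem _ fun P hP => ?_
    have h1 := SetLike.pow_mem_graded ((∏ P ∈ M, d P) / d P) (hdg P hP).2.1
    rw [smul_eq_mul, Nat.div_mul_cancel (hdvd P hP)] at h1
    exact h1
  · refine I.sum_mem fun P hP => ?_
    exact I.pow_mem_of_mem (hdg P hP).2.2.1 _ (Nat.pos_of_ne_zero (hpos P hP))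
  · intro P hP hf
    obtain ⟨P', hPP', hP'⟩ := Q.exists_le_maximal hP
    have hP'M : P' ∈ M := by
      refine Finset.mem_filter.2 ⟨hP'.1, fun P'' h1 h2 => ?_⟩
      exact le_antisymm (hP'.2 h1 h2) h2
    have hf' := hPP' hf
    rw [← Finset.add_sum_erase M _ hP'M] at hf'
    have h2 : ∑ P ∈ M.erase P', g P ^ ((∏ P ∈ M, d P) / d P) ∈ P' := by
      refine P'.sum_mem fun P1 hP1 => ?_
      have hP1M := Finset.mem_of_mem_erase hP1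
      have h3 : P' ∈ M.erase P1 := by
        refine Finset.mem_erase.2 ⟨?_, hP'M⟩
        exact fun h => (Finset.mem_erase.1 hP1).1 h.symm
      exact P'.pow_mem_of_mem ((hdg P1 hP1M).2.2.2.2 P' h3) _ (Nat.pos_of_ne_zero (hpos P1 hP1M))
    have h4 := (P'.add_mem_iff_left h2).1 hf'
    exact (hdg P' hP'M).2.2.2.1 ((hQ P' hP'.1).1.mem_of_pow_mem _ h4)

end Pool.Agent.H60.KP
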